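import Pool.Agent.Lib.MP_fa364e_pr.Std.Defs

/-! Bernoulli bond percolation: definitions. -/

namespace FPPX

open MeasureTheory ProbabilityTheory Filter Set
open scoped Topology

/-- `u` and `v` are joined by a path of edges in `A`. -/
def Conn {d : ℕ} (A : Set (Edge d)) (u v : Fin d → ℤ) : Prop :=
  ∃ l : List (Edge d), IsPath u v l ∧ ∀ e ∈ l, e ∈ A

/-- The open cluster of a vertex. -/
def cluster {d : ℕ} (A : Set (Edge d)) (u : Fin d → ℤ) : Set (Fin d → ℤ) := {v | Conn A u v}

/-- The probability that the open cluster of the origin is infinite, when every edge is open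
with probability `p`, independently. -/
noncomputable def percTheta (d : ℕ) (p : unitInterval) : ℝ :=
  (setBernoulli (Set.univ : Set (Edge d)) p).real {A | (cluster A 0).Infinite}

/-- The critical probability of Bernoulli bond percolation on `ℤ^d`. -/
noncomputable def pc (d : ℕ) : ℝ :=
  sSup {p : ℝ | ∃ h : p ∈ unitInterval, percTheta d ⟨p, h⟩ = 0}

end FPPX
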